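import Pool.Agent.W268.NS.Moder
import Pool.Agent.W268.NS.Fterm

/-!
The criterion.
-/

open MeasureTheory Set Filter Topology
open scoped ENNReal
open H459R3.NS

namespace Pool.Agent.W268.NS

theorem abs_sum3 {f : Fin 3 → ℝ} {B : ℝ} (h : ∀ i, |f i| ≤ B) : |∑ i, f i| ≤ 3 * B := by
  refine (Finset.abs_sum_le_sum_abs _ _).trans ((Finset.sum_le_sum fun m _ => h m).trans ?_)
  simp

/-- Young's inequality for the potential term -/
theorem young2 {θ ε c : ℝ} (hθ0 : 0 ≤ θ) (hθ1 : θ < 2) (hε : 0 < ε) (hc : 0 ≤ c) :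
    ∃ D : ℝ, 0 ≤ D ∧ ∀ β G H : ℝ, 0 ≤ β → 0 ≤ G → 0 ≤ H →
      c * (β * (G ^ (2 - θ) * H ^ θ)) ≤ ε * H ^ 2 + D * (β ^ (2 / (2 - θ)) * G ^ 2) := by
  set w1 := θ / 2 with hw1
  set w2 := (2 - θ) / 2 with hw2
  have h1 : 0 ≤ w1 := by rw [hw1]; linarith
  have h2 : 0 < w2 := by rw [hw2]; linarith
  have h12 : w1 + w2 = 1 := by rw [hw1, hw2]; ring
  set D : ℝ := (c * ε ^ (-w1)) ^ (1 / w2) with hD
  have hb0 : 0 ≤ c * ε ^ (-w1) := by positivity
  have hD0 : 0 ≤ D := Real.rpow_nonneg hb0 _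
  refine ⟨D, hD0, fun β G H hβ hG hH => ?_⟩
  have hq0 : 0 ≤ β ^ (2 / (2 - θ)) := Real.rpow_nonneg hβ _
  have h := Real.geom_mean_le_arith_mean2_weighted h1 h2.le
    (p₁ := ε * H ^ 2) (p₂ := D * (β ^ (2 / (2 - θ)) * G ^ 2)) (by positivity) (by positivity)
    h12
  have e1 : (ε * H ^ 2) ^ w1 = ε ^ w1 * H ^ θ := by
    rw [Real.mul_rpow hε.le (sq_nonneg H)]
    congr 1
    rw [← Real.rpow_natCast H 2, ← Real.rpow_mul hH]
    congr 1
    rw [hw1]; push_cast; ring
  have e2 : (D * (β ^ (2 / (2 - θ)) * G ^ 2)) ^ w2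
      = c * ε ^ (-w1) * (β * G ^ (2 - θ)) := by
    rw [Real.mul_rpow hD0 (by positivity), Real.mul_rpow hq0 (sq_nonneg G)]
    have a1 : D ^ w2 = c * ε ^ (-w1) := by
      rw [hD, ← Real.rpow_mul hb0]
      have : 1 / w2 * w2 = 1 := by field_simp
      rw [this, Real.rpow_one]
    have a2 : (β ^ (2 / (2 - θ))) ^ w2 = β := by
      rw [← Real.rpow_mul hβ]
      have : 2 / (2 - θ) * w2 = 1 := by
        rw [hw2]
        have : 2 - θ ≠ 0 := by linarith
        field_simp
      rw [this, Real.rpow_one]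
    have a3 : (G ^ 2) ^ w2 = G ^ (2 - θ) := by
      rw [← Real.rpow_natCast G 2, ← Real.rpow_mul hG]
      congr 1
      rw [hw2]; push_cast; ring
    rw [a1, a2, a3]
  rw [e1, e2] at h
  have e3 : ε ^ w1 * ε ^ (-w1) = 1 := by
    rw [← Real.rpow_add hε]; simp
  have e4 : ε ^ w1 * H ^ θ * (c * ε ^ (-w1) * (β * G ^ (2 - θ)))
      = (ε ^ w1 * ε ^ (-w1)) * (c * (β * (G ^ (2 - θ) * H ^ θ))) := by ring
  rw [e4, e3, one_mul] at h
  refine h.trans ?_
  have b1 : w1 * (ε * H ^ 2) ≤ 1 * (ε * H ^ 2) :=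
    mul_le_mul_of_nonneg_right (by rw [hw1]; linarith) (by positivity)
  have b2 : w2 * (D * (β ^ (2 / (2 - θ)) * G ^ 2)) ≤ 1 * (D * (β ^ (2 / (2 - θ)) * G ^ 2)) :=
    mul_le_mul_of_nonneg_right (by rw [hw2]; linarith) (by positivity)
  linarith

section

variable {v : V → V} (hv : ∀ i, SP (fun y => v y i))

include hv in
theorem sp_grad (i j : Fin 3) : SP (fun x => gradM v x i j) := (hv j).pd i

include hv in
theorem sp_vort (i : Fin 3) : SP (fun x => vort v x i) := by
  fin_cases i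
  · exact SP.sub' (sp_grad hv 1 2) (sp_grad hv 2 1)
  · exact SP.sub' (sp_grad hv 2 0) (sp_grad hv 0 2)
  · exact SP.sub' (sp_grad hv 0 1) (sp_grad hv 1 0)

include hv in
theorem sp_stretchRate : SP (stretchRate v) :=
  SP.sum fun i _ => SP.sum fun j _ => ((sp_vort hv i).mul (sp_grad hv i j)).mul (sp_vort hv j)

include hv in
theorem sp_adj (i j : Fin 3) : SP (fun x => (gradM v x).adjugate i j) := by
  have h : ∀ a b c d : Fin 3, SP (fun x => gradM v x a b * gradM v x c d) :=
    fun a b c d => (sp_grad hv a b).mul (sp_grad hv c d)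
  have hn : ∀ a b c d : Fin 3, SP (fun x => -(gradM v x a b * gradM v x c d)) := fun a b c d =>
    ⟨(h a b c d).smooth.neg, fun k x => by simp only [(h a b c d).per k x]⟩
  simp_rw [Matrix.adjugate_fin_three]
  fin_cases i <;> fin_cases j
  · exact SP.sub' (h 1 1 2 2) (h 1 2 2 1)
  · exact (hn 0 1 2 2).add (h 0 2 2 1)
  · exact SP.sub' (h 0 1 1 2) (h 0 2 1 1)
  · exact (hn 1 0 2 2).add (h 1 2 2 0)
  · exact SP.sub' (h 0 0 2 2) (h 0 2 2 0)
  · exact (hn 0 0 1 2).add (h 0 2 1 0)
  · exact SP.sub' (h 1 0 2 1) (h 1 1 2 0)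
  · exact (hn 0 0 2 1).add (h 0 1 2 0)
  · exact SP.sub' (h 0 0 1 1) (h 0 1 1 0)

include hv in
theorem int_minor' (i j k l : Fin 3) :
    ∫ x in cube, (gradM v x i k * gradM v x j l - gradM v x j k * gradM v x i l) = 0 :=
  int_minor (hv k) (hv l) i j

include hv in
theorem int_adj (i j : Fin 3) : ∫ x in cube, (gradM v x).adjugate i j = 0 := by
  have m := int_minor' hv
  simp_rw [Matrix.adjugate_fin_three]
  fin_cases i <;> fin_cases j
  · show ∫ x in cube, (gradM v x 1 1 * gradM v x 2 2 - gradM v x 1 2 * gradM v x 2 1) = 0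
    rw [← m 1 2 1 2]
    congr 1; funext x; ring
  · show ∫ x in cube, (-(gradM v x 0 1 * gradM v x 2 2) + gradM v x 0 2 * gradM v x 2 1) = 0
    rw [← m 2 0 1 2]
    congr 1; funext x; ring
  · show ∫ x in cube, (gradM v x 0 1 * gradM v x 1 2 - gradM v x 0 2 * gradM v x 1 1) = 0
    rw [← m 0 1 1 2]
    congr 1; funext x; ring
  · show ∫ x in cube, (-(gradM v x 1 0 * gradM v x 2 2) + gradM v x 1 2 * gradM v x 2 0) = 0
    rw [← m 2 1 0 2]
    congr 1; funext x; ring
  · show ∫ x in cube, (gradM v x 0 0 * gradM v x 2 2 - gradM v x 0 2 * gradM v x 2 0) = 0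
    rw [← m 0 2 0 2]
    congr 1; funext x; ring
  · show ∫ x in cube, (-(gradM v x 0 0 * gradM v x 1 2) + gradM v x 0 2 * gradM v x 1 0) = 0
    rw [← m 1 0 0 2]
    congr 1; funext x; ring
  · show ∫ x in cube, (gradM v x 1 0 * gradM v x 2 1 - gradM v x 1 1 * gradM v x 2 0) = 0
    rw [← m 1 2 0 1]
    congr 1; funext x; ring
  · show ∫ x in cube, (-(gradM v x 0 0 * gradM v x 2 1) + gradM v x 0 1 * gradM v x 2 0) = 0
    rw [← m 2 0 0 1]
    congr 1; funext x; ring
  · show ∫ x in cube, (gradM v x 0 0 * gradM v x 1 1 - gradM v x 0 1 * gradM v x 1 0) = 0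
    rw [← m 0 1 0 1]
    congr 1; funext x; ring

include hv in
/-- The production of enstrophy is the integral of the stretching rate. -/
theorem cub_eq_stretch (hdiv : ∀ x, ∑ i, pd i (fun y => v y i) x = 0) :
    -cub (fun i y => v y i) = ∫ x in cube, stretchRate v x := by
  have h1 : -cub (fun i y => v y i)
      = ∫ x in cube, (stretchRate v x - 3 * (gradM v x).det) := by
    unfold cub
    have e : ∀ x, stretchRate v x - 3 * (gradM v x).det
        = -∑ i, ∑ j, ∑ m, pd m (fun y => v y i) x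
            * (pd i (fun y => v y j) x * pd m (fun y => v y j) x) := by
      intro x
      have h := tr_identity (gradM v x) (by
        have := hdiv x
        rw [Fin.sum_univ_three] at this
        exact this)
      exact h.symm
    simp_rw [e]
    have hsp : ∀ i j m : Fin 3, SP fun x => pd m (fun y => v y i) x
            * (pd i (fun y => v y j) x * pd m (fun y => v y j) x) := fun i j m =>
      ((hv i).pd m).mul (((hv j).pd i).mul ((hv j).pd m))
    rw [integral_neg, integral_finsetSum _ fun i _ =>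
      (SP.sum fun j _ => SP.sum fun m _ => hsp i j m).int]
    congr 1
    refine Finset.sum_congr rfl fun i _ => ?_
    rw [integral_finsetSum _ fun j _ => (SP.sum fun m _ => hsp i j m).int]
    refine Finset.sum_congr rfl fun j _ => ?_
    rw [integral_finsetSum _ fun m _ => (hsp i j m).int]
  rw [h1, integral_sub (sp_stretchRate hv).int ((sp_det hv).int.const_mul 3),
    integral_const_mul, int_det hv]
  ring

end

theorem sp_quad {W : Fin 3 → Fin 3 → Fin 3 → Fin 3 → V → V} (hW : ∀ a b c d, SPV (W a b c d))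
    {v : V → V} (hv : ∀ i, SP (fun y => v y i)) : SP (quad W v) :=
  SP.sum fun a _ => SP.sum fun b _ => SP.sum fun c _ => SP.sum fun d _ =>
    (SP.sum fun e _ => ((hW a b c d).sp e).pd e).mul ((sp_grad hv a b).mul (sp_grad hv c d))

/-- The bound of the quadratic form. -/
theorem int_quad {s : ℝ≥0∞} (hs : 3 < s) : ∃ C : ℝ, 0 ≤ C ∧
    ∀ (W : Fin 3 → Fin 3 → Fin 3 → Fin 3 → V → V) (v : V → V) (G H γ : ℝ),
      (∀ a b c d, SPV (W a b c d)) → 0 ≤ γ →
      (∀ a b c d e, eLpNorm (fun x => W a b c d x e) s (volume.restrict cube)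
        ≤ ENNReal.ofReal γ) → GH2 (fun i x => v x i) G H →
      |∫ x in cube, quad W v x| ≤ C * (γ * (G ^ (1 - th s) * H ^ th s * H)) := by
  obtain ⟨C1, hC10, hC1⟩ := mul_of_Lp hs
  refine ⟨486 * C1, by positivity, fun W v G H γ hW hγ hWs ha => ?_⟩
  have hv : ∀ i, SP (fun y => v y i) := ha.sp
  set X := G ^ (1 - th s) * H ^ th s * H with hX
  have hterm : ∀ a b c d e, |∫ x in cube, pd e (fun y => W a b c d y e) x
      * (gradM v x a b * gradM v x c d)| ≤ 2 * (C1 * γ * (1 * 1 * X)) := by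
    intro a b c d e
    exact abs_int_C3_le ((hW a b c d).sp e) ((hv b).pd a) ((hv d).pd c) (int_pd_zero (hv b) a)
      (int_pd_zero (hv d) c) (hC1 _ _ ((hW a b c d).sp e).cont hγ (hWs a b c d e)) e
      (mul_nonneg hC10 hγ) (th_nonneg s) (th_lt_one hs) ha.g0 ha.h0 zero_le_one zero_le_one
      (by rw [one_mul]; exact ha.gh.g _ _)
      (by rw [one_mul]; exact (grd_pd_le_lap (hv b) a).trans (nrm_lap_le ha b))
      (by rw [one_mul]; exact ha.gh.h _ _ _)
      (by rw [one_mul]; exact ha.gh.g _ _)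
      (by rw [one_mul]; exact (grd_pd_le_lap (hv d) c).trans (nrm_lap_le ha d))
      (by rw [one_mul]; exact ha.gh.h _ _ _)
  have hsp : ∀ a b c d e : Fin 3, SP fun x => pd e (fun y => W a b c d y e) x
      * (gradM v x a b * gradM v x c d) := fun a b c d e =>
    (((hW a b c d).sp e).pd e).mul ((sp_grad hv a b).mul (sp_grad hv c d))
  have e1 : ∫ x in cube, quad W v x = ∑ a, ∑ b, ∑ c, ∑ d, ∑ e,
      ∫ x in cube, pd e (fun y => W a b c d y e) x * (gradM v x a b * gradM v x c d) := by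
    unfold quad dvg
    simp_rw [Finset.sum_mul]
    rw [integral_finsetSum _ fun a _ => (SP.sum fun b _ => SP.sum fun c _ => SP.sum fun d _ =>
      SP.sum fun e _ => hsp a b c d e).int]
    refine Finset.sum_congr rfl fun a _ => ?_
    rw [integral_finsetSum _ fun b _ => (SP.sum fun c _ => SP.sum fun d _ =>
      SP.sum fun e _ => hsp a b c d e).int]
    refine Finset.sum_congr rfl fun b _ => ?_
    rw [integral_finsetSum _ fun c _ => (SP.sum fun d _ => SP.sum fun e _ => hsp a b c d e).int]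
    refine Finset.sum_congr rfl fun c _ => ?_
    rw [integral_finsetSum _ fun d _ => (SP.sum fun e _ => hsp a b c d e).int]
    refine Finset.sum_congr rfl fun d _ => ?_
    rw [integral_finsetSum _ fun e _ => (hsp a b c d e).int]
  rw [e1]
  refine (abs_sum3 fun a => abs_sum3 fun b => abs_sum3 fun c => abs_sum3 fun d =>
    abs_sum3 fun e => hterm a b c d e).trans (le_of_eq ?_)
  ring

/-- The bound of the potential term. -/
theorem int_pot {p : ℝ≥0∞} (hp : 3 / 2 < p) : ∃ C : ℝ, 0 ≤ C ∧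
    ∀ (f : V → ℝ) (v : V → V) (G H β : ℝ), AEStronglyMeasurable f (volume.restrict cube) →
      0 ≤ β → eLpNorm f p (volume.restrict cube) ≤ ENNReal.ofReal β →
      GH2 (fun i x => v x i) G H →
      IntegrableOn (fun x => f x * gradSq v x) cube ∧
      ∫ x in cube, f x * gradSq v x ≤ C * (β * (G ^ (2 - th p) * H ^ th p)) := by
  obtain ⟨C1, hC10, hC1⟩ := pot_of_Lp hp
  refine ⟨9 * C1, by positivity, fun f v G H β hf hβ hfβ ha => ?_⟩
  have := cube_fin
  have hv : ∀ i, SP (fun y => v y i) := ha.sp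
  have hθ0 := th_nonneg p
  have hθ2 := th_lt_two hp
  have hp1 : 1 ≤ p := by
    refine le_trans ?_ hp.le
    rw [ENNReal.le_div_iff_mul_le (by norm_num) (by norm_num)]
    norm_num
  have hfL : Integrable f (volume.restrict cube) := by
    have : MemLp f p (volume.restrict cube) := ⟨hf, hfβ.trans_lt ENNReal.ofReal_lt_top⟩
    exact this.integrable hp1
  have hint : ∀ i j : Fin 3, IntegrableOn (fun x => f x * (gradM v x i j * gradM v x i j)) cube := by
    intro i j
    obtain ⟨B, hB⟩ := isCompact_Icc.exists_bound_of_continuousOn (s := cube)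
      ((sp_grad hv i j).mul (sp_grad hv i j)).cont.continuousOn
    refine hfL.mul_bdd (c := B) ((sp_grad hv i j).mul (sp_grad hv i j)).cont.aestronglyMeasurable ?_
    exact (ae_restrict_iff' measurableSet_Icc).2 (Filter.Eventually.of_forall fun x hx => hB x hx)
  have hs : ∀ x, f x * gradSq v x = ∑ i, ∑ j, f x * (gradM v x i j * gradM v x i j) := by
    intro x
    unfold gradSq
    rw [Finset.mul_sum]
    refine Finset.sum_congr rfl fun i _ => ?_
    rw [Finset.mul_sum]
    refine Finset.sum_congr rfl fun j _ => ?_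
    ring
  simp_rw [hs]
  refine ⟨integrable_finsetSum _ fun i _ => integrable_finsetSum _ fun j _ => hint i j, ?_⟩
  rw [integral_finsetSum _ fun i _ => integrable_finsetSum _ fun j _ => hint i j]
  have e1 : ∀ i, ∫ x in cube, ∑ j, f x * (gradM v x i j * gradM v x i j)
      = ∑ j, ∫ x in cube, f x * (gradM v x i j * gradM v x i j) := fun i =>
    integral_finsetSum _ fun j _ => hint i j
  simp_rw [e1]
  have hterm : ∀ i j : Fin 3, |∫ x in cube, f x * (gradM v x i j * gradM v x i j)|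
      ≤ C1 * β * (G ^ (2 - th p) * H ^ th p) := by
    intro i j
    refine (hC1 f β (pd i (fun y => v y j)) hf hβ hfβ ((hv j).pd i) (int_pd_zero (hv j) i)).trans ?_
    have g1 : nrm (pd i (fun y => v y j)) ≤ G := ha.gh.g _ _
    have g2 : grd (pd i (fun y => v y j)) ≤ H :=
      (grd_pd_le_lap (hv j) i).trans (nrm_lap_le ha j)
    refine mul_le_mul_of_nonneg_left ?_ (mul_nonneg hC10 hβ)
    exact mul_le_mul (Real.rpow_le_rpow (nrm_nonneg _) g1 (by linarith))
      (Real.rpow_le_rpow (grd_nonneg _) g2 hθ0) (Real.rpow_nonneg (grd_nonneg _) _)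
      (Real.rpow_nonneg ha.g0 _)
  refine (le_abs_self _).trans ((abs_sum3 fun i => abs_sum3 fun j => hterm i j).trans (le_of_eq ?_))
  ring

end Pool.Agent.W268.NS
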