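import Pool.Agent.H459R3.NS.Defs

/-!
Definitions for the two-point criterion.
-/

open MeasureTheory Set
open H459R3.NS

namespace Pool.Agent.W268.NS

/-- the matrix of the derivatives `∂ᵢ vⱼ` -/
noncomputable def gradM (v : V → V) (x : V) : Matrix (Fin 3) (Fin 3) ℝ :=
  Matrix.of fun i j => pd i (fun y => v y j) x

/-- the curl of `v` -/
noncomputable def vort (v : V → V) (x : V) : V :=
  ![gradM v x 1 2 - gradM v x 2 1, gradM v x 2 0 - gradM v x 0 2, gradM v x 0 1 - gradM v x 1 0]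

/-- the vortex stretching rate `ω · (ω · ∇) v`, where `ω` is the curl of `v` -/
noncomputable def stretchRate (v : V → V) (x : V) : ℝ :=
  ∑ i, ∑ j, vort v x i * gradM v x i j * vort v x j

/-- `|∇ v|²` -/
noncomputable def gradSq (v : V → V) (x : V) : ℝ := ∑ i, ∑ j, gradM v x i j ^ 2

/-- `|Δ v|²` -/
noncomputable def lapSq (v : V → V) (x : V) : ℝ := ∑ i, lap (fun y => v y i) x ^ 2

/-- The divergence of `w`. -/
noncomputable def dvg (w : V → V) (x : V) : ℝ := ∑ e, pd e (fun y => w y e) x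

/-- The quadratic form `∑ (div W_{abcd}) ∂ₐ v_b ∂_c v_d` in the gradient of `v`. -/
noncomputable def quad (W : Fin 3 → Fin 3 → Fin 3 → Fin 3 → V → V) (v : V → V) (x : V) : ℝ :=
  ∑ a, ∑ b, ∑ c, ∑ d, dvg (W a b c d) x * (gradM v x a b * gradM v x c d)

/-- The excess of the stretching rate over the admissible terms:
`ω · (ω · ∇) v - f |∇ v|² - κ ν |Δ v|² - Θ : adj ∇v - ∑ (div W_{abcd}) ∂ₐ v_b ∂_c v_d`. -/
noncomputable def excess (κ ν : ℝ) (f : V → ℝ) (Θ : Matrix (Fin 3) (Fin 3) ℝ)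
    (W : Fin 3 → Fin 3 → Fin 3 → Fin 3 → V → V) (v : V → V) (x : V) : ℝ :=
  stretchRate v x - f x * gradSq v x - κ * ν * lapSq v x
    - ∑ i, ∑ j, Θ i j * (gradM v x).adjugate i j - quad W v x

end Pool.Agent.W268.NS
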