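import Pool.Agent.W268.NS.Moder

/-!
A two-point condition which makes the integral of a function nonpositive.
-/

open MeasureTheory Set Filter Topology
open scoped ENNReal
open H459R3.NS

namespace Pool.Agent.W268.NS

/-- A null measurable subset of finite measure contains a `σ`-compact subset of full measure. -/
theorem exists_sigma_compact {A : Set V} (hA : NullMeasurableSet A volume) (hf : volume A ≠ ∞) :
    ∃ F : ℕ → Set V, (∀ n, IsCompact (F n)) ∧ (∀ n, F n ⊆ A) ∧ volume (A \ ⋃ n, F n) = 0 := by
  obtain ⟨t, htA, htm, hte⟩ := hA.exists_measurable_subset_ae_eq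
  have htf : volume t ≠ ∞ := ne_top_of_le_ne_top hf (measure_mono htA)
  have h1 : ∀ n : ℕ, ∃ F ⊆ t, IsCompact F ∧ volume (t \ F) < ((n : ℝ≥0∞) + 1)⁻¹ := by
    intro n
    refine htm.exists_isCompact_sdiff_lt htf ?_
    simp
  choose F hFt hFc hF using h1
  refine ⟨F, hFc, fun n => (hFt n).trans htA, ?_⟩
  have h2 : volume (A \ t) = 0 := by
    have := ae_le_set.1 hte.symm.le
    exact this
  have h3 : volume (t \ ⋃ n, F n) = 0 := by
    refine le_antisymm (le_of_forall_pos_le_add fun ε hε => ?_) bot_le
    obtain ⟨n, hn⟩ := ENNReal.exists_inv_nat_lt hε.ne'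
    rw [zero_add]
    refine le_trans (measure_mono (sdiff_subset_sdiff_right (subset_iUnion F n))) ?_
    refine (hF n).le.trans (le_trans ?_ hn.le)
    exact ENNReal.inv_le_inv.2 (by exact le_self_add)
  refine measure_mono_null (t := (A \ t) ∪ (t \ ⋃ n, F n)) ?_ (measure_union_null h2 h3)
  intro x hx
  by_cases hxt : x ∈ t
  · exact Or.inr ⟨hxt, hx.2⟩
  · exact Or.inl ⟨hx.1, hxt⟩

variable {v : V → V} (hv : ∀ i, SP (fun y => v y i))

include hv in
theorem v_cont : Continuous v := continuous_pi fun i => (hv i).cont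

/-- The separating function. -/
theorem exists_sep {h : V → ℝ} (hh : IntegrableOn h cube) {Z : Set V}
    (hZ : volume Z = 0)
    (h2 : ∀ x ∈ cube \ Z, ∀ y ∈ cube \ Z, v x = v y → 0 < (gradM v x).det →
      (gradM v y).det < 0 → h x / (gradM v x).det ≤ h y / (gradM v y).det)
    (hv : ∀ i, SP (fun y => v y i)) :
    ∃ K : V → EReal, Measurable K ∧
      (∀ᵐ x ∂(volume.restrict cube), 0 < (gradM v x).det →
        ((h x / (gradM v x).det : ℝ) : EReal) ≤ K (v x)) ∧
      (∀ x ∈ cube \ Z, (gradM v x).det < 0 → K (v x) ≤ ((h x / (gradM v x).det : ℝ) : EReal)) := by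
  set D : V → ℝ := fun x => (gradM v x).det with hD
  have hDc : Continuous D := (sp_det hv).cont
  set A : ℚ → Set V := fun c => (cube \ Z) ∩ {x | 0 < D x ∧ (c : ℝ) < h x / D x} with hA
  have hAn : ∀ c, NullMeasurableSet (A c) volume := by
    intro c
    obtain ⟨h', hm', he'⟩ := hh.aestronglyMeasurable
    have hm'' := hm'.measurable
    have hB : MeasurableSet (cube ∩ {x | 0 < D x ∧ (c : ℝ) < h' x / D x}) := by
      refine measurableSet_cube.inter (MeasurableSet.inter (s₁ := {x | 0 < D x})
        (s₂ := {x | (c : ℝ) < h' x / D x}) ?_ ?_)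
      · exact measurableSet_lt measurable_const hDc.measurable
      · exact measurableSet_lt measurable_const (hm''.div hDc.measurable)
    refine hB.nullMeasurableSet.congr ?_
    have he : ∀ᵐ x ∂(volume : Measure V), x ∈ cube → h x = h' x :=
      (ae_restrict_iff' measurableSet_cube).1 he'
    have hz : ∀ᵐ x ∂(volume : Measure V), x ∉ Z := measure_eq_zero_iff_ae_notMem.1 hZ
    filter_upwards [he, hz] with x hx hxz
    refine propext ⟨fun ⟨a, b, c⟩ => ⟨⟨a, hxz⟩, b, ?_⟩, fun ⟨⟨a, _⟩, b, c⟩ => ⟨a, b, ?_⟩⟩
    · rw [hx a]; exact c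
    · rw [← hx a]; exact c
  have hAf : ∀ c, volume (A c) ≠ ∞ := fun c =>
    ne_top_of_le_ne_top isCompact_Icc.measure_lt_top.ne
      (measure_mono (t := cube) fun x hx => hx.1.1)
  choose F hFc hFA hF0 using fun c => exists_sigma_compact (hAn c) (hAf c)
  set S : ℚ → Set V := fun c => ⋃ n, v '' (F c n) with hS
  have hSm : ∀ c, MeasurableSet (S c) := fun c =>
    MeasurableSet.iUnion fun n => ((hFc c n).image (v_cont hv)).isClosed.measurableSet
  classical
  refine ⟨fun y => ⨆ c : ℚ, if y ∈ S c then (((c : ℝ)) : EReal) else ⊥, ?_, ?_, ?_⟩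
  · exact Measurable.iSup fun c => Measurable.ite (hSm c) measurable_const measurable_const
  · have h1 : ∀ᵐ x ∂(volume : Measure V), x ∉ Z := measure_eq_zero_iff_ae_notMem.1 hZ
    have h3 : ∀ᵐ x ∂(volume : Measure V), ∀ c, x ∉ A c \ ⋃ n, F c n :=
      ae_all_iff.2 fun c => measure_eq_zero_iff_ae_notMem.1 (hF0 c)
    rw [ae_restrict_iff' measurableSet_cube]
    filter_upwards [h1, h3] with x hxz hxc hxQ hpos
    by_contra hcon
    rw [not_le] at hcon
    obtain ⟨c, hc1, hc2⟩ := EReal.lt_iff_exists_rat_btwn.1 hcon
    have hc2' : (c : ℝ) < h x / D x := by exact_mod_cast hc2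
    have hxA : x ∈ A c := ⟨⟨hxQ, hxz⟩, hpos, hc2'⟩
    have hxF : x ∈ ⋃ n, F c n := by
      by_contra hn
      exact hxc c ⟨hxA, hn⟩
    obtain ⟨n, hn⟩ := mem_iUnion.1 hxF
    have hvS : v x ∈ S c := mem_iUnion.2 ⟨n, mem_image_of_mem v hn⟩
    have hle : (((c : ℝ)) : EReal) ≤ ⨆ c : ℚ, if v x ∈ S c then (((c : ℝ)) : EReal) else ⊥ := by
      refine le_iSup_of_le c ?_
      rw [if_pos hvS]
    exact absurd (hle.trans_lt hc1) (lt_irrefl _)
  · intro x hx hneg
    refine iSup_le fun c => ?_
    split_ifs with hc
    · obtain ⟨n, hn⟩ := mem_iUnion.1 hc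
      obtain ⟨x', hx', hvx⟩ := hn
      have hA' := hFA c n hx'
      have h3 := h2 x' hA'.1 x hx hvx hA'.2.1 hneg
      have h4 : (c : ℝ) ≤ h x / D x := hA'.2.2.le.trans h3
      exact_mod_cast h4
    · exact bot_le

include hv in
/-- The two-point condition. -/
theorem two_point {h : V → ℝ} (hh : IntegrableOn h cube) {Z : Set V}
    (hZ : volume Z = 0) (h0 : ∀ x ∈ cube \ Z, (gradM v x).det = 0 → h x ≤ 0)
    (h2 : ∀ x ∈ cube \ Z, ∀ y ∈ cube \ Z, v x = v y → 0 < (gradM v x).det →
      (gradM v y).det < 0 → h x / (gradM v x).det ≤ h y / (gradM v y).det) :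
    ∫ x in cube, h x ≤ 0 := by
  obtain ⟨K, hK, hK1, hK2'⟩ := exists_sep hh hZ h2 hv
  have := cube_fin
  set D : V → ℝ := fun x => (gradM v x).det with hD
  have hDc : Continuous D := (sp_det hv).cont
  have hz : ∀ᵐ x ∂(volume.restrict cube), x ∈ cube \ Z := by
    rw [ae_restrict_iff' measurableSet_cube]
    filter_upwards [measure_eq_zero_iff_ae_notMem.1 hZ] with x hx hxc
    exact ⟨hxc, hx⟩
  have hK2 : ∀ᵐ x ∂(volume.restrict cube), D x < 0 → K (v x) ≤ ((h x / D x : ℝ) : EReal) := by
    filter_upwards [hz] with x hx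
    exact hK2' x hx
  have hDi : IntegrableOn D cube := (sp_det hv).int
  -- bounded functions of `v` are admissible
  have hadm : ∀ (k : V → ℝ) (B : ℝ), Measurable k → (∀ y, |k y| ≤ B) →
      IntegrableOn (fun x => k (v x) * D x) cube := by
    intro k B hk hB
    refine hDi.bdd_mul (c := B) (hk.comp (v_meas hv)).aestronglyMeasurable ?_
    exact Filter.Eventually.of_forall fun x => hB (v x)
  classical
  -- the values `⊤` and `⊥`
  have htop : ∀ᵐ x ∂(volume.restrict cube), K (v x) = ⊤ → D x = 0 := by
    set k : V → ℝ := fun y => if K y = ⊤ then 1 else 0 with hk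
    have hkm : Measurable k := Measurable.ite (hK (measurableSet_singleton _)) measurable_const
      measurable_const
    have hi := hadm k 1 hkm (fun y => by simp only [hk]; split_ifs <;> simp)
    have h1 := int_moder hv hkm hi
    have h3 : 0 ≤ᵐ[volume.restrict cube] fun x => k (v x) * D x := by
      filter_upwards [hK2] with x hx
      show 0 ≤ k (v x) * D x
      by_cases hkt : K (v x) = ⊤
      · by_cases hneg : D x < 0
        · have := hx hneg
          rw [hkt, top_le_iff] at this
          exact absurd this (EReal.coe_ne_top _)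
        · simp only [hk, if_pos hkt, one_mul]
          exact not_lt.1 hneg
      · simp [hk, if_neg hkt]
    have h4 := (integral_eq_zero_iff_of_nonneg_ae h3 hi).1 h1
    filter_upwards [h4] with x hx hkt
    simpa [hk, hkt] using hx
  have hbot : ∀ᵐ x ∂(volume.restrict cube), K (v x) = ⊥ → D x = 0 := by
    set k : V → ℝ := fun y => if K y = ⊥ then -1 else 0 with hk
    have hkm : Measurable k := Measurable.ite (hK (measurableSet_singleton _)) measurable_const
      measurable_const
    have hi := hadm k 1 hkm (fun y => by simp only [hk]; split_ifs <;> simp)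
    have h1 := int_moder hv hkm hi
    have h3 : 0 ≤ᵐ[volume.restrict cube] fun x => k (v x) * D x := by
      filter_upwards [hK1] with x hx
      show 0 ≤ k (v x) * D x
      by_cases hkt : K (v x) = ⊥
      · by_cases hpos : 0 < D x
        · have := hx hpos
          rw [hkt, le_bot_iff] at this
          exact absurd this (EReal.coe_ne_bot _)
        · simp only [hk, if_pos hkt, neg_mul, one_mul]
          linarith [not_lt.1 hpos]
      · simp [hk, if_neg hkt]
    have h4 := (integral_eq_zero_iff_of_nonneg_ae h3 hi).1 h1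
    filter_upwards [h4] with x hx hkt
    simpa [hk, hkt] using hx
  -- the real valued function and its truncations
  set k : V → ℝ := fun y => (K y).toReal with hk
  have hkm : Measurable k := hK.ereal_toReal
  set kn : ℕ → V → ℝ := fun n y => max (-(n : ℝ)) (min (k y) n) with hkn
  have hknm : ∀ n, Measurable (kn n) := fun n => measurable_const.max (hkm.min measurable_const)
  have hknb : ∀ n y, |kn n y| ≤ n := by
    intro n y
    rw [abs_le]
    have hn : (0 : ℝ) ≤ n := Nat.cast_nonneg n
    exact ⟨le_max_left _ _, max_le (by linarith) (min_le_right _ _)⟩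
  have hkni := fun n => hadm (kn n) n (hknm n) (hknb n)
  have hknz : ∀ n, ∫ x in cube, kn n (v x) * D x = 0 := fun n => int_moder hv (hknm n) (hkni n)
  set en : ℕ → V → ℝ := fun n x => if (n : ℝ) < |k (v x)| then |h x| else 0 with hen
  have henm : ∀ n, AEStronglyMeasurable (en n) (volume.restrict cube) := by
    intro n
    have hs : MeasurableSet {x | (n : ℝ) < |k (v x)|} :=
      measurableSet_lt measurable_const (hkm.comp (v_meas hv)).abs
    have : en n = Set.indicator {x | (n : ℝ) < |k (v x)|} (fun x => |h x|) := by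
      funext x
      simp only [hen, Set.indicator, mem_ofPred_eq]
    rw [this]
    exact (hh.aestronglyMeasurable.norm).indicator hs
  have henb : ∀ n, ∀ᵐ x ∂(volume.restrict cube), ‖en n x‖ ≤ |h x| := by
    intro n
    refine Filter.Eventually.of_forall fun x => ?_
    simp only [hen]
    split_ifs
    · rw [Real.norm_eq_abs, abs_abs]
    · rw [norm_zero]; exact abs_nonneg _
  have heni : ∀ n, IntegrableOn (en n) cube := fun n =>
    Integrable.mono' hh.abs (henm n) (henb n)
  have hlim : Tendsto (fun n => ∫ x in cube, en n x) atTop (𝓝 (∫ x in cube, (0 : ℝ))) := by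
    refine tendsto_integral_of_dominated_convergence (fun x => |h x|) henm hh.abs henb ?_
    refine Filter.Eventually.of_forall fun x => ?_
    refine tendsto_const_nhds.congr' ?_
    filter_upwards [eventually_ge_atTop ⌈|k (v x)|⌉₊] with n hn
    have : |k (v x)| ≤ n := (Nat.le_ceil _).trans (by exact_mod_cast hn)
    simp only [hen, if_neg (not_lt.2 this)]
  rw [integral_zero] at hlim
  refine ge_of_tendsto' hlim fun n => ?_
  have e1 : ∫ x in cube, h x = ∫ x in cube, (h x - kn n (v x) * D x) := by
    rw [integral_sub hh (hkni n), hknz n, sub_zero]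
  rw [e1]
  refine integral_mono_ae (hh.sub (hkni n)) (heni n) ?_
  filter_upwards [hz, hK1, hK2, htop, hbot] with x hx hx1 hx2 hxt hxb
  show h x - kn n (v x) * D x ≤ en n x
  have hen0 : 0 ≤ en n x := by
    simp only [hen]
    split_ifs
    · exact abs_nonneg _
    · exact le_rfl
  have hn0 : (0 : ℝ) ≤ n := Nat.cast_nonneg n
  rcases lt_trichotomy (D x) 0 with hneg | hzero | hpos
  · have ht : K (v x) ≠ ⊤ := fun h => hneg.ne (hxt h)
    have hb : K (v x) ≠ ⊥ := fun h => hneg.ne (hxb h)
    have h3 : k (v x) ≤ h x / D x := by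
      have := hx2 hneg
      rw [← EReal.coe_toReal ht hb] at this
      exact_mod_cast this
    have h4 : h x = (h x / D x) * D x := by field_simp [hneg.ne]
    by_cases hc : kn n (v x) ≤ h x / D x
    · have : h x - kn n (v x) * D x = (h x / D x - kn n (v x)) * D x := by
        rw [sub_mul, ← h4]
      rw [this]
      exact (mul_nonpos_of_nonneg_of_nonpos (sub_nonneg.2 hc) hneg.le).trans hen0
    · push Not at hc
      -- then `k < -n`
      have h5 : k (v x) < -(n : ℝ) := by
        by_contra hcon
        push Not at hcon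
        have : kn n (v x) ≤ k (v x) := max_le hcon (min_le_left _ _)
        linarith
      have h6 : kn n (v x) = -(n : ℝ) := by
        simp only [hkn]
        exact max_eq_left ((min_le_left _ _).trans h5.le)
      have h7 : (n : ℝ) < |k (v x)| := by
        rw [lt_abs]; right; linarith
      have h8 : en n x = |h x| := by simp only [hen, if_pos h7]
      rw [h6, h8]
      have := le_abs_self (h x)
      nlinarith
  · rw [hzero, mul_zero, sub_zero]
    exact (h0 x hx hzero).trans hen0
  · have ht : K (v x) ≠ ⊤ := fun h => hpos.ne' (hxt h)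
    have hb : K (v x) ≠ ⊥ := fun h => hpos.ne' (hxb h)
    have h3 : h x / D x ≤ k (v x) := by
      have := hx1 hpos
      rw [← EReal.coe_toReal ht hb] at this
      exact_mod_cast this
    have h4 : h x = (h x / D x) * D x := by field_simp [hpos.ne']
    by_cases hc : h x / D x ≤ kn n (v x)
    · have : h x - kn n (v x) * D x = (h x / D x - kn n (v x)) * D x := by
        rw [sub_mul, ← h4]
      rw [this]
      exact (mul_nonpos_of_nonpos_of_nonneg (sub_nonpos.2 hc) hpos.le).trans hen0
    · push Not at hc
      have h5 : (n : ℝ) < k (v x) := by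
        by_contra hcon
        push Not at hcon
        have : k (v x) ≤ kn n (v x) := by
          simp only [hkn]
          rw [min_eq_left hcon]
          exact le_max_right _ _
        linarith
      have h6 : kn n (v x) = (n : ℝ) := by
        simp only [hkn]
        rw [min_eq_right h5.le]
        exact max_eq_right (by linarith)
      have h7 : (n : ℝ) < |k (v x)| := by
        rw [lt_abs]; left; exact h5
      have h8 : en n x = |h x| := by simp only [hen, if_pos h7]
      rw [h6, h8]
      have := le_abs_self (h x)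
      nlinarith

end Pool.Agent.W268.NS
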