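import Pool.Agent.W268.NS.Crit
import Pool.Agent.W268.NS.TwoPt

/-!
The two-point criterion.
-/

open MeasureTheory Set Filter Topology
open scoped ENNReal
open H459R3.NS

namespace Pool.Agent.W268.NS

/-- The bound of the production of enstrophy. -/
theorem prod_le {p s : ℝ≥0∞} (hp : 3 / 2 < p) (hs : 3 < s) (κ ν : ℝ) : ∃ C : ℝ, 0 ≤ C ∧
    ∀ (v : V → V) (f : V → ℝ) (Θ : Matrix (Fin 3) (Fin 3) ℝ)
      (W : Fin 3 → Fin 3 → Fin 3 → Fin 3 → V → V) (Z : Set V) (β γ G H : ℝ),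
      GH2 (fun i x => v x i) G H → (∀ x, ∑ i, pd i (fun y => v y i) x = 0) → 0 ≤ β → 0 ≤ γ →
      AEStronglyMeasurable f (volume.restrict cube) →
      eLpNorm f p (volume.restrict cube) ≤ ENNReal.ofReal β →
      (∀ a b c d, SPV (W a b c d)) →
      (∀ a b c d e, eLpNorm (fun x => W a b c d x e) s (volume.restrict cube)
        ≤ ENNReal.ofReal γ) →
      volume Z = 0 →
      (∀ x ∈ cube \ Z, (gradM v x).det = 0 → excess κ ν f Θ W v x ≤ 0) →
      (∀ x ∈ cube \ Z, ∀ y ∈ cube \ Z, v x = v y → 0 < (gradM v x).det →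
        (gradM v y).det < 0 → excess κ ν f Θ W v x / (gradM v x).det
          ≤ excess κ ν f Θ W v y / (gradM v y).det) →
      -cub (fun i x => v x i) ≤ C * (β * (G ^ (2 - th p) * H ^ th p))
        + C * (γ * (G ^ (1 - th s) * H ^ th s * H)) + κ * ν * palin v := by
  obtain ⟨C1, hC10, hC1⟩ := int_pot hp
  obtain ⟨C2, hC20, hC2⟩ := int_quad hs
  refine ⟨C1 + C2, by positivity, fun v f Θ W Z β γ G H ha hdiv hβ hγ hf hfβ hW hWγ hZ h0 h2 => ?_⟩
  have hv : ∀ i, SP (fun y => v y i) := ha.sp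
  obtain ⟨hfi, hfI⟩ := hC1 f v G H β hf hβ hfβ ha
  have hq := hC2 W v G H γ hW hγ hWγ ha
  have i1 : IntegrableOn (stretchRate v) cube := (sp_stretchRate hv).int
  have hl : SP (lapSq v) := by
    have : lapSq v = fun x => ∑ i, lap (fun y => v y i) x * lap (fun y => v y i) x := by
      funext x
      unfold lapSq
      exact Finset.sum_congr rfl fun i _ => sq _
    rw [this]
    exact SP.sum fun i _ => (hv i).lap.mul (hv i).lap
  have i3 : IntegrableOn (fun x => κ * ν * lapSq v x) cube := hl.int.const_mul _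
  have hadj : ∀ i j, IntegrableOn (fun x => Θ i j * (gradM v x).adjugate i j) cube :=
    fun i j => (sp_adj hv i j).int.const_mul _
  have i4 : IntegrableOn (fun x => ∑ i, ∑ j, Θ i j * (gradM v x).adjugate i j) cube :=
    integrable_finsetSum _ fun i _ => integrable_finsetSum _ fun j _ => hadj i j
  have i5 : IntegrableOn (quad W v) cube := (sp_quad hW hv).int
  have i12 : IntegrableOn (fun x => stretchRate v x - f x * gradSq v x) cube := i1.sub hfi
  have i13 : IntegrableOn (fun x => stretchRate v x - f x * gradSq v x - κ * ν * lapSq v x) cube :=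
    i12.sub i3
  have i14 : IntegrableOn (fun x => stretchRate v x - f x * gradSq v x - κ * ν * lapSq v x
      - ∑ i, ∑ j, Θ i j * (gradM v x).adjugate i j) cube := i13.sub i4
  have hexc : IntegrableOn (excess κ ν f Θ W v) cube := i14.sub i5
  have h := two_point hv hexc hZ h0 h2
  unfold excess at h
  rw [integral_sub i14 i5, integral_sub i13 i4, integral_sub i12 i3, integral_sub i1 hfi,
    integral_const_mul] at h
  have e4 : ∫ x in cube, ∑ i, ∑ j, Θ i j * (gradM v x).adjugate i j = 0 := by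
    rw [integral_finsetSum _ fun i _ => integrable_finsetSum _ fun j _ => hadj i j]
    refine Finset.sum_eq_zero fun i _ => ?_
    rw [integral_finsetSum _ fun j _ => hadj i j]
    refine Finset.sum_eq_zero fun j _ => ?_
    rw [integral_const_mul, int_adj hv, mul_zero]
  have e3 : ∫ x in cube, lapSq v x = palin v := by
    unfold lapSq palin
    rw [integral_finsetSum _ fun i _ => ?_]
    have := ((hv i).lap.mul (hv i).lap).int
    refine this.congr (Filter.Eventually.of_forall fun x => ?_)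
    simp only [sq]
  have e1 := cub_eq_stretch hv hdiv
  rw [← e1, e3, e4] at h
  have hX1 : 0 ≤ β * (G ^ (2 - th p) * H ^ th p) :=
    mul_nonneg hβ (mul_nonneg (Real.rpow_nonneg ha.g0 _) (Real.rpow_nonneg ha.h0 _))
  have hX2 : 0 ≤ γ * (G ^ (1 - th s) * H ^ th s * H) :=
    mul_nonneg hγ (mul_nonneg (mul_nonneg (Real.rpow_nonneg ha.g0 _) (Real.rpow_nonneg ha.h0 _))
      ha.h0)
  have hq' := (abs_le.1 hq).2
  have b1 : 0 ≤ C2 * (β * (G ^ (2 - th p) * H ^ th p)) := mul_nonneg hC20 hX1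
  have b2 : 0 ≤ C1 * (γ * (G ^ (1 - th s) * H ^ th s * H)) := mul_nonneg hC10 hX2
  linarith

theorem criterion {p s : ℝ≥0∞} (hp : 3 / 2 < p) (hs : 3 < s) {q r : ℝ}
    (hpq : 3 * (p⁻¹).toReal + 2 / q = 2) (hsr : 3 * (s⁻¹).toReal + 2 / r = 1)
    {ν κ : ℝ} (hν : 0 < ν) (hκ : κ < 1) :
    ∃ C : ℝ, 0 ≤ C ∧ ∀ (T : ℝ) (u : ℝ → V → V) (P : ℝ → V → ℝ) (β γ : ℝ → ℝ), IsSol ν T u P →
      (∀ t ∈ Ioo 0 T, 0 ≤ β t ∧ 0 ≤ γ t) → IntegrableOn (fun t => β t ^ q) (Ioo 0 T) →
      IntegrableOn (fun t => γ t ^ r) (Ioo 0 T) →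
      (∀ t ∈ Ioo 0 T, ∃ (f : V → ℝ) (Θ : Matrix (Fin 3) (Fin 3) ℝ)
        (W : Fin 3 → Fin 3 → Fin 3 → Fin 3 → V → V) (Z : Set V),
        AEStronglyMeasurable f (volume.restrict cube) ∧
        eLpNorm f p (volume.restrict cube) ≤ ENNReal.ofReal (β t) ∧
        (∀ a b c d, SPV (W a b c d)) ∧
        (∀ a b c d e, eLpNorm (fun x => W a b c d x e) s (volume.restrict cube)
          ≤ ENNReal.ofReal (γ t)) ∧
        volume Z = 0 ∧
        (∀ x ∈ cube \ Z, (gradM (u t) x).det = 0 → excess κ ν f Θ W (u t) x ≤ 0) ∧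
        (∀ x ∈ cube \ Z, ∀ y ∈ cube \ Z, u t x = u t y → 0 < (gradM (u t) x).det →
          (gradM (u t) y).det < 0 → excess κ ν f Θ W (u t) x / (gradM (u t) x).det
            ≤ excess κ ν f Θ W (u t) y / (gradM (u t) y).det)) →
      (∀ t ∈ Ico 0 T, enstrophy (u t) ≤ enstrophy (u 0) * Real.exp
        (C * ((∫ τ in Ioo 0 T, β τ ^ q) + ∫ τ in Ioo 0 T, γ τ ^ r))) ∧
      ∃ M, ∀ t ∈ Ico 0 T, ∀ x i, |u t x i| ≤ M := by
  set θ := th p with hθ
  set φ := th s with hφ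
  have hθ0 : 0 ≤ θ := th_nonneg p
  have hθ2 : θ < 2 := th_lt_two hp
  have hφ0 : 0 ≤ φ := th_nonneg s
  have hφ1 : φ < 1 := th_lt_one hs
  have hq : q = 2 / (2 - θ) := by
    have h1 : 2 / q = 2 - θ := by
      have : θ = 3 * (p⁻¹).toReal := rfl
      rw [this]
      linarith
    rw [← h1]
    have : q ≠ 0 := by
      intro h0
      rw [h0, div_zero] at h1
      linarith
    field_simp
  have hr : r = 2 / (1 - φ) := by
    have h1 : 2 / r = 1 - φ := by
      have : φ = 3 * (s⁻¹).toReal := rfl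
      rw [this]
      linarith
    rw [← h1]
    have : r ≠ 0 := by
      intro h0
      rw [h0, div_zero] at h1
      linarith
    field_simp
  obtain ⟨C0, hC00, hC0⟩ := prod_le hp hs κ ν
  have hδ : 0 < 1 - κ := by linarith
  obtain ⟨D1, hD10, hD1⟩ := young2 (θ := θ) (ε := (1 - κ) * ν / 2) (c := 2 * C0) hθ0 hθ2
    (by positivity) (by positivity)
  obtain ⟨D2, hD20, hD2⟩ := young (c := 2 * C0) hφ0 hφ1 (mul_pos hδ hν) (by positivity)
  refine ⟨D1 + D2, by positivity, fun T u P β γ h hβγ0 hβi hγi hcomp => ?_⟩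
  have hβ0 : ∀ t ∈ Ioo 0 T, 0 ≤ β t := fun t ht => (hβγ0 t ht).1
  have hγ0 : ∀ t ∈ Ioo 0 T, 0 ≤ γ t := fun t ht => (hβγ0 t ht).2
  set y : ℝ → ℝ := fun s => enstrophy (u s) with hy
  have hy0 : ∀ s, 0 ≤ y s := fun s => enstrophy_nonneg _
  set g : ℝ → ℝ := fun s => D1 * β s ^ q + D2 * γ s ^ r with hg
  have hg0 : ∀ s ∈ Ioo 0 T, 0 ≤ g s := by
    intro s hs
    have h1 := Real.rpow_nonneg (hβ0 s hs) q
    have h3 := Real.rpow_nonneg (hγ0 s hs) r
    simp only [hg]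
    positivity
  have hβq0 : 0 ≤ ∫ s in Ioo 0 T, β s ^ q :=
    setIntegral_nonneg measurableSet_Ioo fun s hs => Real.rpow_nonneg (hβ0 s hs) q
  have hγr0 : 0 ≤ ∫ s in Ioo 0 T, γ s ^ r :=
    setIntegral_nonneg measurableSet_Ioo fun s hs => Real.rpow_nonneg (hγ0 s hs) r
  have hβ1 : ∀ t ∈ Ico 0 T, IntegrableOn (fun s => β s ^ q) (Icc 0 t) := by
    intro t ht
    rw [integrableOn_Icc_iff_integrableOn_Ioc, integrableOn_Ioc_iff_integrableOn_Ioo]
    exact hβi.mono_set (Ioo_subset_Ioo_right ht.2.le)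
  have hγ1 : ∀ t ∈ Ico 0 T, IntegrableOn (fun s => γ s ^ r) (Icc 0 t) := by
    intro t ht
    rw [integrableOn_Icc_iff_integrableOn_Ioc, integrableOn_Ioc_iff_integrableOn_Ioo]
    exact hγi.mono_set (Ioo_subset_Ioo_right ht.2.le)
  refine h.gron hν (g := g) hδ hg0 (fun t ht => ((hβ1 t ht).const_mul _).add
    ((hγ1 t ht).const_mul _)) (fun t ht => ?_) (fun τ hτ => ?_)
  · -- the integral of `g`
    have i1 : IntervalIntegrable (fun s => D1 * β s ^ q) volume 0 t :=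
      ((intervalIntegrable_iff_integrableOn_Icc_of_le ht.1).2 (hβ1 t ht)).const_mul _
    have i2 : IntervalIntegrable (fun s => D2 * γ s ^ r) volume 0 t :=
      ((intervalIntegrable_iff_integrableOn_Icc_of_le ht.1).2 (hγ1 t ht)).const_mul _
    simp only [hg]
    rw [intervalIntegral.integral_add i1 i2, intervalIntegral.integral_const_mul,
      intervalIntegral.integral_const_mul]
    have a1 : ∫ s in (0 : ℝ)..t, β s ^ q ≤ ∫ s in Ioo 0 T, β s ^ q := by
      rw [intervalIntegral.integral_of_le ht.1, integral_Ioc_eq_integral_Ioo]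
      refine setIntegral_mono_set hβi ?_ (Ioo_subset_Ioo_right ht.2.le).eventuallyLE
      filter_upwards [ae_restrict_mem measurableSet_Ioo] with s hs
      exact Real.rpow_nonneg (hβ0 s hs) q
    have a2 : ∫ s in (0 : ℝ)..t, γ s ^ r ≤ ∫ s in Ioo 0 T, γ s ^ r := by
      rw [intervalIntegral.integral_of_le ht.1, integral_Ioc_eq_integral_Ioo]
      refine setIntegral_mono_set hγi ?_ (Ioo_subset_Ioo_right ht.2.le).eventuallyLE
      filter_upwards [ae_restrict_mem measurableSet_Ioo] with s hs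
      exact Real.rpow_nonneg (hγ0 s hs) r
    have a5 : D1 * ∫ s in (0 : ℝ)..t, β s ^ q ≤ D1 * ∫ s in Ioo 0 T, β s ^ q := by gcongr
    have a6 : D2 * ∫ s in (0 : ℝ)..t, γ s ^ r ≤ D2 * ∫ s in Ioo 0 T, γ s ^ r := by gcongr
    have b1 : 0 ≤ D1 * ∫ s in Ioo 0 T, γ s ^ r := by positivity
    have b2 : 0 ≤ D2 * ∫ s in Ioo 0 T, β s ^ q := by positivity
    linarith
  · -- the differential inequality
    have hI : τ ∈ Ico 0 T := ⟨hτ.1.le, hτ.2⟩
    obtain ⟨f, Θ, W, Z, hf, hfβ, hW, hWγ, hZ, h0, h2⟩ := hcomp τ hτ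
    set G := Real.sqrt (y τ) with hG
    set H := Real.sqrt (palin (u τ)) with hH
    have hG2 : G ^ 2 = y τ := Real.sq_sqrt (hy0 τ)
    have hH2 : H ^ 2 = palin (u τ) := Real.sq_sqrt (palin_nonneg _)
    have hG0 : 0 ≤ G := Real.sqrt_nonneg _
    have hH0 : 0 ≤ H := Real.sqrt_nonneg _
    have ha : GH2 (fun i x => u τ x i) G H :=
      ⟨fun i => h.sp hI i, hG0, hH0, hG2.symm.le, hH2.symm.le⟩
    have hprod := hC0 (u τ) f Θ W Z (β τ) (γ τ) G H ha (h.divfree τ hI) (hβ0 τ hτ) (hγ0 τ hτ)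
      hf hfβ hW hWγ hZ h0 h2
    have hY1 := hD1 (β τ) G H (hβ0 τ hτ) hG0 hH0
    have hY2 := hD2 (γ τ) G H (hγ0 τ hτ) hG0 hH0
    have h8 : g τ * y τ = D1 * (β τ ^ (2 / (2 - θ)) * G ^ 2)
        + D2 * (γ τ ^ (2 / (1 - φ)) * G ^ 2) := by
      simp only [hg]
      rw [← hG2, hq, hr]
      ring
    show -(2 * cub (fun i x => u τ x i)) ≤ (2 - (1 - κ)) * (ν * palin (u τ)) + g τ * y τ
    rw [h8]
    rw [← hH2] at hprod ⊢
    linarith

end Pool.Agent.W268.NS
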