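import Pool.Agent.W268.NS.Null

/-!
The integral of `K(v) det ∇v` vanishes for every Borel function `K`.
-/

open MeasureTheory Set Filter Topology
open scoped ContDiff ENNReal
open H459R3.NS

namespace Pool.Agent.W268.NS

theorem cube_fin : IsFiniteMeasure (volume.restrict cube) :=
  ⟨by rw [Measure.restrict_apply_univ]; exact isCompact_Icc.measure_lt_top⟩

section

variable {v : V → V} (hv : ∀ i, SP (fun y => v y i))

/-- the linear combination `∑ cₘ vₘ` -/
noncomputable def lin (c : V) (v : V → V) (x : V) : ℝ := ∑ m, c m * v x m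

include hv in
theorem sp_lin (c : V) : SP (lin c v) where
  smooth := ContDiff.sum fun m _ => contDiff_const.mul (hv m).smooth
  per := fun i x => by
    unfold lin
    refine Finset.sum_congr rfl fun m _ => ?_
    have : v (x + Pi.single i 1) m = v x m := (hv m).per i x
    rw [this]

include hv in
theorem pd_lin (c : V) (j : Fin 3) (x : V) :
    pd j (lin c v) x = ∑ m, c m * pd j (fun y => v y m) x := by
  unfold pd
  have h : HasFDerivAt (lin c v) (∑ m, c m • fderiv ℝ (fun y => v y m) x) x := by
    unfold lin
    exact HasFDerivAt.fun_sum fun m _ => ((hv m).diff x).hasFDerivAt.const_mul (c m)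
  rw [h.fderiv]
  simp

theorem sp_comp {g : V → ℝ} (hg : SP g) {F : ℝ → ℝ} (hF : ContDiff ℝ ∞ F) :
    SP (fun x => F (g x)) where
  smooth := hF.comp hg.smooth
  per := fun i x => by simp only [hg.per i x]

theorem pd_comp {g : V → ℝ} (hg : SP g) {F : ℝ → ℝ} (hF : ContDiff ℝ ∞ F) (j : Fin 3) (x : V) :
    pd j (fun x => F (g x)) x = deriv F (g x) * pd j g x := by
  unfold pd
  have h1 : HasDerivAt F (deriv F (g x)) (g x) :=
    ((hF.differentiable (by norm_cast)) (g x)).hasDerivAt
  have h : HasFDerivAt (fun x => F (g x)) (deriv F (g x) • fderiv ℝ g x) x :=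
    h1.comp_hasFDerivAt x (hg.diff x).hasFDerivAt
  rw [h.fderiv]
  simp

theorem jac_cyc (a b c : V → ℝ) (x : V) : jac a b c x = jac b c a x := by
  unfold jac; ring

/-- replacing the `j`-th component -/
noncomputable def jacR (v : V → V) (a : V → ℝ) (j : Fin 3) : V → ℝ :=
  jac a (fun y => v y (j + 1)) (fun y => v y (j + 2))

theorem jacR_self (v : V → V) (j : Fin 3) (x : V) :
    jacR v (fun y => v y j) j x = (gradM v x).det := by
  rw [gradM_det]
  fin_cases j
  · rfl
  · show jac (fun y => v y 1) (fun y => v y 2) (fun y => v y 0) x = _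
    rw [← jac_cyc]
  · show jac (fun y => v y 2) (fun y => v y 0) (fun y => v y 1) x = _
    rw [jac_cyc]

include hv in
/-- the determinant of `∇ F(c·v)`, `∇ v_{j+1}`, `∇ v_{j+2}` -/
theorem jacR_lin (c : V) {F : ℝ → ℝ} (hF : ContDiff ℝ ∞ F) (j : Fin 3) (x : V) :
    jacR v (fun x => F (lin c v x)) j x = deriv F (lin c v x) * (c j * (gradM v x).det) := by
  rw [← jacR_self v j]
  unfold jacR jac
  simp only [pd_comp (sp_lin hv c) hF, pd_lin hv c, Fin.sum_univ_three]
  fin_cases j
  · simp only [Fin.zero_eta, zero_add]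
    show _ = _ * (c 0 * (pd 0 (fun y => v y 0) x * _ + pd 1 (fun y => v y 0) x * _
      + pd 2 (fun y => v y 0) x * _))
    ring
  · show deriv F (lin c v x) * _ * (pd 1 (fun y => v y 2) x * pd 2 (fun y => v y 0) x
        - pd 2 (fun y => v y 2) x * pd 1 (fun y => v y 0) x)
      + deriv F (lin c v x) * _ * (pd 2 (fun y => v y 2) x * pd 0 (fun y => v y 0) x
        - pd 0 (fun y => v y 2) x * pd 2 (fun y => v y 0) x)
      + deriv F (lin c v x) * _ * (pd 0 (fun y => v y 2) x * pd 1 (fun y => v y 0) x
        - pd 1 (fun y => v y 2) x * pd 0 (fun y => v y 0) x)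
      = _ * (c 1 * (pd 0 (fun y => v y 1) x * (pd 1 (fun y => v y 2) x * pd 2 (fun y => v y 0) x
        - pd 2 (fun y => v y 2) x * pd 1 (fun y => v y 0) x)
        + pd 1 (fun y => v y 1) x * (pd 2 (fun y => v y 2) x * pd 0 (fun y => v y 0) x
        - pd 0 (fun y => v y 2) x * pd 2 (fun y => v y 0) x)
      + pd 2 (fun y => v y 1) x * (pd 0 (fun y => v y 2) x * pd 1 (fun y => v y 0) x
        - pd 1 (fun y => v y 2) x * pd 0 (fun y => v y 0) x)))
    ring
  · show deriv F (lin c v x) * _ * (pd 1 (fun y => v y 0) x * pd 2 (fun y => v y 1) x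
        - pd 2 (fun y => v y 0) x * pd 1 (fun y => v y 1) x)
      + deriv F (lin c v x) * _ * (pd 2 (fun y => v y 0) x * pd 0 (fun y => v y 1) x
        - pd 0 (fun y => v y 0) x * pd 2 (fun y => v y 1) x)
      + deriv F (lin c v x) * _ * (pd 0 (fun y => v y 0) x * pd 1 (fun y => v y 1) x
        - pd 1 (fun y => v y 0) x * pd 0 (fun y => v y 1) x)
      = _ * (c 2 * (pd 0 (fun y => v y 2) x * (pd 1 (fun y => v y 0) x * pd 2 (fun y => v y 1) x
        - pd 2 (fun y => v y 0) x * pd 1 (fun y => v y 1) x)
        + pd 1 (fun y => v y 2) x * (pd 2 (fun y => v y 0) x * pd 0 (fun y => v y 1) x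
        - pd 0 (fun y => v y 0) x * pd 2 (fun y => v y 1) x)
      + pd 2 (fun y => v y 2) x * (pd 0 (fun y => v y 0) x * pd 1 (fun y => v y 1) x
        - pd 1 (fun y => v y 0) x * pd 0 (fun y => v y 1) x)))
    ring

include hv in
theorem int_det : ∫ x in cube, (gradM v x).det = 0 := by
  simp_rw [gradM_det]
  exact int_jac (hv 0) (hv 1) (hv 2)

include hv in
theorem sp_det : SP (fun x => (gradM v x).det) := by
  simp_rw [gradM_det]
  exact sp_jac (hv 0) (hv 1) (hv 2)

include hv in
theorem int_trig (c : V) {F : ℝ → ℝ} (hF : ContDiff ℝ ∞ F) (hc : c ≠ 0) :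
    ∫ x in cube, deriv F (lin c v x) * (gradM v x).det = 0 := by
  obtain ⟨j, hj⟩ : ∃ j, c j ≠ 0 := by
    by_contra hcon
    push Not at hcon
    exact hc (funext hcon)
  have h := int_jac (sp_comp (sp_lin hv c) hF) (hv (j + 1)) (hv (j + 2))
  have h2 : ∀ x, jac (fun x => F (lin c v x)) (fun y => v y (j + 1)) (fun y => v y (j + 2)) x
      = c j * (deriv F (lin c v x) * (gradM v x).det) := by
    intro x
    have := jacR_lin hv c hF j x
    unfold jacR at this
    rw [this]
    ring
  simp_rw [h2] at h
  rw [integral_const_mul] at h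
  exact (mul_eq_zero.1 h).resolve_left hj

include hv in
theorem int_cos (c : V) : ∫ x in cube, Real.cos (lin c v x) * (gradM v x).det = 0 := by
  by_cases hc : c = 0
  · have : ∀ x, lin c v x = 0 := by
      intro x; simp [lin, hc]
    simp_rw [this, Real.cos_zero, one_mul]
    exact int_det hv
  · have := int_trig hv c Real.contDiff_sin hc
    simpa only [Real.deriv_sin] using this

include hv in
theorem int_sin (c : V) : ∫ x in cube, Real.sin (lin c v x) * (gradM v x).det = 0 := by
  by_cases hc : c = 0
  · have : ∀ x, lin c v x = 0 := by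
      intro x; simp [lin, hc]
    simp_rw [this, Real.sin_zero, zero_mul]
    simp
  · have := int_trig hv c Real.contDiff_cos hc
    simp only [Real.deriv_cos, neg_mul] at this
    rw [integral_neg] at this
    linarith

theorem dual_eq (L : StrongDual ℝ V) (y : V) : L y = ∑ i, L (Pi.single i 1) * y i := by
  have : y = ∑ i, y i • (Pi.single i 1 : V) := by
    ext j
    simp [Finset.sum_apply, Pi.single_apply]
  conv_lhs => rw [this]
  rw [map_sum]
  refine Finset.sum_congr rfl (fun i _ => ?_)
  rw [map_smul, smul_eq_mul, mul_comm]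

/-- the push-forward of `max (σ det ∇v) 0 dx` by `v` -/
noncomputable def pf (v : V → V) (σ : ℝ) : Measure V :=
  ((volume.restrict cube).withDensity
    fun x => ENNReal.ofReal (max (σ * (gradM v x).det) 0)).map v

include hv in
theorem v_meas : Measurable v := measurable_pi_iff.2 fun i => (hv i).cont.measurable

include hv in
theorem dens_cont (σ : ℝ) : Continuous fun x => max (σ * (gradM v x).det) 0 :=
  (continuous_const.mul (sp_det hv).cont).max continuous_const

include hv in
theorem pf_finite (σ : ℝ) : IsFiniteMeasure (pf v σ) := by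
  have := cube_fin
  have h1 : IsFiniteMeasure ((volume.restrict cube).withDensity
      fun x => ENNReal.ofReal (max (σ * (gradM v x).det) 0)) :=
    isFiniteMeasure_withDensity_ofReal (integrableOn_cube (dens_cont hv σ)).2
  unfold pf
  infer_instance

include hv in
theorem int_pf (σ : ℝ) {E : Type*} [NormedAddCommGroup E] [NormedSpace ℝ E] (F : V → E)
    (hF : StronglyMeasurable F) :
    ∫ y, F y ∂(pf v σ) = ∫ x in cube, max (σ * (gradM v x).det) 0 • F (v x) := by
  unfold pf
  rw [integral_map (v_meas hv).aemeasurable hF.aestronglyMeasurable,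
    integral_withDensity_eq_integral_toReal_smul
      (dens_cont hv σ).measurable.ennreal_ofReal
      (Filter.Eventually.of_forall fun x => ENNReal.ofReal_lt_top)]
  refine integral_congr_ae (Filter.Eventually.of_forall fun x => ?_)
  simp only
  rw [ENNReal.toReal_ofReal (le_max_right _ _)]

include hv in
theorem pf_eq : pf v 1 = pf v (-1) := by
  have f1 := pf_finite hv 1
  have f2 := pf_finite hv (-1)
  apply Measure.ext_of_charFunDual
  ext L
  rw [charFunDual_apply, charFunDual_apply, int_pf hv, int_pf hv]
  rotate_left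
  · exact Continuous.stronglyMeasurable (by fun_prop)
  · exact Continuous.stronglyMeasurable (by fun_prop)
  set c : V := fun i => L (Pi.single i 1) with hc
  have hL : ∀ x, L (v x) = lin c v x := fun x => dual_eq L (v x)
  have hlc : Continuous (lin c v) := (sp_lin hv c).cont
  have hexp : ∀ x, Complex.exp (L (v x) * Complex.I)
      = (Real.cos (lin c v x) : ℂ) + (Real.sin (lin c v x) : ℂ) * Complex.I := by
    intro x
    rw [hL, Complex.exp_mul_I, Complex.ofReal_cos, Complex.ofReal_sin]
  rw [← sub_eq_zero, ← integral_sub]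
  rotate_left
  · refine integrableOn_cube ((dens_cont hv 1).smul ?_)
    simp_rw [hexp]
    fun_prop
  · refine integrableOn_cube ((dens_cont hv (-1)).smul ?_)
    simp_rw [hexp]
    fun_prop
  have e : ∀ x, max (1 * (gradM v x).det) 0 • Complex.exp (L (v x) * Complex.I)
      - max (-1 * (gradM v x).det) 0 • Complex.exp (L (v x) * Complex.I)
      = ((Real.cos (lin c v x) * (gradM v x).det : ℝ) : ℂ)
        + ((Real.sin (lin c v x) * (gradM v x).det : ℝ) : ℂ) * Complex.I := by
    intro x
    rw [hexp, ← sub_smul]
    have h1 : max (1 * (gradM v x).det) 0 - max (-1 * (gradM v x).det) 0 = (gradM v x).det := by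
      rcases le_total 0 (gradM v x).det with h | h
      · rw [one_mul, max_eq_left h, max_eq_right (by linarith), sub_zero]
      · rw [one_mul, max_eq_right h, max_eq_left (by linarith)]
        ring
    rw [h1, Complex.real_smul]
    push_cast
    ring
  simp_rw [e]
  have c1 : Continuous fun x => ((Real.cos (lin c v x) * (gradM v x).det : ℝ) : ℂ) :=
    Complex.continuous_ofReal.comp ((Real.continuous_cos.comp hlc).mul (sp_det hv).cont)
  have c2 : Continuous fun x => ((Real.sin (lin c v x) * (gradM v x).det : ℝ) : ℂ) :=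
    Complex.continuous_ofReal.comp ((Real.continuous_sin.comp hlc).mul (sp_det hv).cont)
  rw [integral_add (integrableOn_cube c1) ((integrableOn_cube c2).mul_const _),
    integral_mul_const, integral_complex_ofReal, integral_complex_ofReal, int_cos hv, int_sin hv]
  simp

include hv in
/-- The integral of `K(v) det ∇v` vanishes. -/
theorem int_moder {K : V → ℝ} (hK : Measurable K)
    (hi : IntegrableOn (fun x => K (v x) * (gradM v x).det) cube) :
    ∫ x in cube, K (v x) * (gradM v x).det = 0 := by
  have h : ∫ y, K y ∂(pf v 1) = ∫ y, K y ∂(pf v (-1)) := by rw [pf_eq hv]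
  rw [int_pf hv 1 K hK.stronglyMeasurable, int_pf hv (-1) K hK.stronglyMeasurable] at h
  have hm : ∀ σ : ℝ, |σ| = 1 → IntegrableOn (fun x => max (σ * (gradM v x).det) 0 • K (v x)) cube := by
    intro σ hσ
    refine Integrable.mono hi ?_ (Filter.Eventually.of_forall fun x => ?_)
    · exact ((dens_cont hv σ).measurable.mul (hK.comp (v_meas hv))).aestronglyMeasurable
    · rw [smul_eq_mul, norm_mul, norm_mul, mul_comm]
      gcongr
      rw [Real.norm_eq_abs, Real.norm_eq_abs, abs_of_nonneg (le_max_right _ _)]
      refine max_le ?_ (abs_nonneg _)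
      calc σ * (gradM v x).det ≤ |σ * (gradM v x).det| := le_abs_self _
        _ = |(gradM v x).det| := by rw [abs_mul, hσ, one_mul]
  rw [← sub_eq_zero, ← integral_sub (hm 1 (by simp)) (hm (-1) (by simp))] at h
  rw [← h]
  refine integral_congr_ae (Filter.Eventually.of_forall fun x => ?_)
  simp only [smul_eq_mul]
  rw [← sub_mul]
  have h1 : max (1 * (gradM v x).det) 0 - max (-1 * (gradM v x).det) 0 = (gradM v x).det := by
    rcases le_total 0 (gradM v x).det with h | h
    · rw [one_mul, max_eq_left h, max_eq_right (by linarith), sub_zero]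
    · rw [one_mul, max_eq_right h, max_eq_left (by linarith)]
      ring
  rw [h1, mul_comm]

end

end Pool.Agent.W268.NS
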