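import Pool.Agent.H459R3.NS.Final
import Pool.Agent.W268.NS.Defs

/-!
Null Lagrangians: integrals of minors of the gradient of smooth periodic functions.
-/

open MeasureTheory Set Filter Topology
open scoped ContDiff
open H459R3.NS

namespace Pool.Agent.W268.NS

/-- The production of enstrophy in terms of the stretching rate and the determinant. -/
theorem tr_identity (A : Matrix (Fin 3) (Fin 3) ℝ) (h : A 0 0 + A 1 1 + A 2 2 = 0) :
    -∑ i, ∑ j, ∑ m, A m i * (A i j * A m j)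
      = (∑ i, ∑ j, (![A 1 2 - A 2 1, A 2 0 - A 0 2, A 0 1 - A 1 0] : V) i * A i j
          * (![A 1 2 - A 2 1, A 2 0 - A 0 2, A 0 1 - A 1 0] : V) j) - 3 * A.det := by
  rw [Matrix.det_fin_three]
  simp only [Fin.sum_univ_three, Matrix.cons_val_zero, Matrix.cons_val_one, Matrix.cons_val_two,
    Matrix.head_cons, Matrix.tail_cons]
  have e : A 2 2 = -(A 0 0 + A 1 1) := by linarith
  rw [e]
  ring

theorem int_minor {b c : V → ℝ} (hb : SP b) (hc : SP c) (i j : Fin 3) :
    ∫ x in cube, (pd i b x * pd j c x - pd j b x * pd i c x) = 0 := by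
  rw [integral_sub ((hb.pd i).mul (hc.pd j)).int ((hb.pd j).mul (hc.pd i)).int,
    ibp hb (hc.pd j) i, ibp hb (hc.pd i) j, pd_comm hc i j]
  ring

/-- the determinant of three gradients -/
noncomputable def jac (a b c : V → ℝ) (x : V) : ℝ :=
  pd 0 a x * (pd 1 b x * pd 2 c x - pd 2 b x * pd 1 c x)
    + pd 1 a x * (pd 2 b x * pd 0 c x - pd 0 b x * pd 2 c x)
    + pd 2 a x * (pd 0 b x * pd 1 c x - pd 1 b x * pd 0 c x)

theorem SP.sub' {f g : V → ℝ} (hf : SP f) (hg : SP g) : SP (fun x => f x - g x) where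
  smooth := hf.smooth.sub hg.smooth
  per := fun i x => by simp only [hf.per i x, hg.per i x]

theorem pd_sub {f g : V → ℝ} (hf : SP f) (hg : SP g) (m : Fin 3) (x : V) :
    pd m (fun y => f y - g y) x = pd m f x - pd m g x := by
  unfold pd
  have h : HasFDerivAt (fun y => f y - g y) _ x := (hf.diff x).hasFDerivAt.sub (hg.diff x).hasFDerivAt
  rw [h.fderiv]
  rfl

theorem sp_minor {b c : V → ℝ} (hb : SP b) (hc : SP c) (i j : Fin 3) :
    SP (fun x => pd i b x * pd j c x - pd j b x * pd i c x) :=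
  SP.sub' ((hb.pd i).mul (hc.pd j)) ((hb.pd j).mul (hc.pd i))

theorem sp_jac {a b c : V → ℝ} (ha : SP a) (hb : SP b) (hc : SP c) : SP (jac a b c) :=
  (((ha.pd 0).mul (sp_minor hb hc 1 2)).add ((ha.pd 1).mul (sp_minor hb hc 2 0))).add
    ((ha.pd 2).mul (sp_minor hb hc 0 1))

/-- The integral of the determinant vanishes. -/
theorem int_jac {a b c : V → ℝ} (ha : SP a) (hb : SP b) (hc : SP c) :
    ∫ x in cube, jac a b c x = 0 := by
  have i0 := ((ha.pd 0).mul (sp_minor hb hc 1 2))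
  have i1 := ((ha.pd 1).mul (sp_minor hb hc 2 0))
  have i2 := ((ha.pd 2).mul (sp_minor hb hc 0 1))
  unfold jac
  rw [integral_add (i0.add i1).int i2.int, integral_add i0.int i1.int,
    ibp ha (sp_minor hb hc 1 2) 0, ibp ha (sp_minor hb hc 2 0) 1, ibp ha (sp_minor hb hc 0 1) 2]
  have j0 := (ha.mul ((sp_minor hb hc 1 2).pd 0))
  have j1 := (ha.mul ((sp_minor hb hc 2 0).pd 1))
  have j2 := (ha.mul ((sp_minor hb hc 0 1).pd 2))
  have e : (∫ x in cube, a x * pd 0 (fun x => pd 1 b x * pd 2 c x - pd 2 b x * pd 1 c x) x)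
      + (∫ x in cube, a x * pd 1 (fun x => pd 2 b x * pd 0 c x - pd 0 b x * pd 2 c x) x)
      + (∫ x in cube, a x * pd 2 (fun x => pd 0 b x * pd 1 c x - pd 1 b x * pd 0 c x) x) = 0 := by
    rw [← integral_add j0.int j1.int, ← integral_add (j0.add j1).int j2.int]
    have h0 : ∀ x, a x * pd 0 (fun x => pd 1 b x * pd 2 c x - pd 2 b x * pd 1 c x) x
        + a x * pd 1 (fun x => pd 2 b x * pd 0 c x - pd 0 b x * pd 2 c x) x
        + a x * pd 2 (fun x => pd 0 b x * pd 1 c x - pd 1 b x * pd 0 c x) x = 0 := by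
      intro x
      have hh : ∀ i j : Fin 3, ∀ y, pd i (fun x => b x) y = pd i b y := fun _ _ _ => rfl
      rw [pd_sub ((hb.pd 1).mul (hc.pd 2)) ((hb.pd 2).mul (hc.pd 1)),
        pd_sub ((hb.pd 2).mul (hc.pd 0)) ((hb.pd 0).mul (hc.pd 2)),
        pd_sub ((hb.pd 0).mul (hc.pd 1)) ((hb.pd 1).mul (hc.pd 0)),
        pd_mul (hb.pd 1) (hc.pd 2), pd_mul (hb.pd 2) (hc.pd 1), pd_mul (hb.pd 2) (hc.pd 0),
        pd_mul (hb.pd 0) (hc.pd 2), pd_mul (hb.pd 0) (hc.pd 1), pd_mul (hb.pd 1) (hc.pd 0),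
        pd_comm hb 1 0, pd_comm hb 2 0, pd_comm hb 2 1,
        pd_comm hc 1 0, pd_comm hc 2 0, pd_comm hc 2 1]
      ring
    simp_rw [h0]
    simp
  linarith

theorem gradM_det (v : V → V) (x : V) : (gradM v x).det
    = jac (fun y => v y 0) (fun y => v y 1) (fun y => v y 2) x := by
  rw [Matrix.det_fin_three]
  simp only [gradM, Matrix.of_apply, jac]
  ring

end Pool.Agent.W268.NS
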